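import Pool.Agent.H17.RX.Stm

/-! # CREW RX: part STEP -/

set_option autoImplicit false
open Filter Topology MeasureTheory
open scoped ComplexConjugate ENNReal

namespace Pool.Agent.H6.RX

open Pool.Agent.H17.RX

theorem norm_chi (a : ZMod 4) : ‖chi a‖ = 1 := by
  unfold chi
  rw [norm_pow, Complex.norm_I, one_pow]

theorem card_Th (n : ℕ) : Fintype.card (Th n) = 4 ^ n := by
  simp [Th, ZMod.card]

theorem t_STEP (hST1 : S_ST1) (hAVG : S_AVG) : S_STEP := by
  classical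
  intro d n s hn hs u f hS B w hw1 hw2 ε hε
  have hN : 0 < n * s := Nat.mul_pos hn hs
  have hs0 : (0 : ℝ) < s := by exact_mod_cast hs
  set X : Th (n * s) → Fin (n * s) → ℂ :=
    fun θ b => (starRingEnd ℂ) (chi (θ b)) * inner ℂ (u b) (w (f θ)) with hX
  have hX0 : ∀ θ, ∑ b, X θ b = 0 := by
    intro θ
    have h := hw2 (f θ)
    rw [hS.vec θ, inner_smul_left, sum_inner] at h
    have h1 : (starRingEnd ℂ) (((Real.sqrt ((n * s : ℕ) : ℝ) : ℝ) : ℂ)⁻¹) ≠ 0 := by
      have h0 : (0 : ℝ) < Real.sqrt ((n * s : ℕ) : ℝ) := Real.sqrt_pos.2 (by exact_mod_cast hN)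
      rw [map_inv₀, Complex.conj_ofReal]
      exact inv_ne_zero (by exact_mod_cast h0.ne')
    have h2 := (mul_eq_zero.1 h).resolve_left h1
    rw [← h2]
    apply Finset.sum_congr rfl
    intro b _
    rw [inner_smul_left]
  have hX1 : ∀ θ, ∑ b, ‖X θ b‖ ^ 2 ≤ 1 := by
    intro θ
    have h := hS.on.sum_inner_products_le (w (f θ)) (s := Finset.univ)
    have h2 : ∑ b, ‖X θ b‖ ^ 2 = ∑ b, ‖inner ℂ (u b) (w (f θ))‖ ^ 2 := by
      apply Finset.sum_congr rfl
      intro b _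
      rw [hX]
      simp only
      rw [norm_mul, RCLike.norm_conj, norm_chi, one_mul]
    rw [h2]
    refine h.trans ?_
    have h3 := hw1 (f θ)
    nlinarith [norm_nonneg (w (f θ))]
  set P : Th (n * s) → Equiv.Perm (Fin (n * s)) → ℝ :=
    fun θ τ => (1 / (s : ℝ)) * ∑ c : Fin n, ‖∑ b with cl τ b = c, X θ b‖ ^ 2 with hP
  have hPs : ∀ θ, ∑ τ, P θ τ ≤ ((n * s).factorial : ℝ) / s := by
    intro θ
    have h := hAVG n s (X θ) (hX0 θ)
    rw [hP]
    simp only
    rw [← Finset.mul_sum]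
    calc (1 / (s : ℝ)) * ∑ τ : Equiv.Perm (Fin (n * s)), ∑ c : Fin n, ‖∑ b with cl τ b = c, X θ b‖ ^ 2
        ≤ (1 / (s : ℝ)) * (((n * s).factorial : ℝ) * ∑ b, ‖X θ b‖ ^ 2) :=
          mul_le_mul_of_nonneg_left h (by positivity)
      _ ≤ (1 / (s : ℝ)) * (((n * s).factorial : ℝ) * 1) :=
          mul_le_mul_of_nonneg_left (mul_le_mul_of_nonneg_left (hX1 θ) (by positivity)) (by positivity)
      _ = ((n * s).factorial : ℝ) / s := by ring
  have hpr : ∀ (τ : Equiv.Perm (Fin (n * s))) (σ : Th (n * s)) (θ' : Th n),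
      ‖pr (cu u τ σ) (w (f (cg τ σ θ')))‖ ^ 2 = P (cg τ σ θ') τ := by
    intro τ σ θ'
    exact (hST1 d n s hn hs u f hS τ σ).2 θ' _
  set G : Th (n * s) → Equiv.Perm (Fin (n * s)) → ℝ :=
    fun θ τ => (if θ ∈ B then (1 : ℝ) else 0) - P θ τ / ε ^ 2 with hG
  have hsum1 : ∑ p : Equiv.Perm (Fin (n * s)) × Th (n * s), ∑ θ' : Th n, G (cg p.1 p.2 θ') p.1 =
      4 ^ n * ∑ θ : Th (n * s), ∑ τ : Equiv.Perm (Fin (n * s)), G θ τ := by
    rw [Fintype.sum_prod_type]
    simp only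
    have h1 : ∀ τ : Equiv.Perm (Fin (n * s)), ∑ σ : Th (n * s), ∑ θ' : Th n, G (cg τ σ θ') τ =
        4 ^ n * ∑ θ : Th (n * s), G θ τ := by
      intro τ
      rw [Finset.sum_comm]
      have h2 : ∀ θ' : Th n, ∑ σ : Th (n * s), G (cg τ σ θ') τ = ∑ θ : Th (n * s), G θ τ := by
        intro θ'
        exact Equiv.sum_comp (Equiv.addLeft (fun b => θ' (cl τ b) : Th (n * s))) (fun θ => G θ τ)
      rw [Finset.sum_congr rfl (fun θ' _ => h2 θ'), Finset.sum_const, Finset.card_univ, card_Th,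
        nsmul_eq_mul]
      push_cast
      ring
    rw [Finset.sum_congr rfl (fun τ _ => h1 τ), ← Finset.mul_sum, Finset.sum_comm]
  have hsum2 : ((n * s).factorial : ℝ) * B.card - 4 ^ (n * s) * (((n * s).factorial : ℝ) / (s * ε ^ 2)) ≤
      ∑ θ : Th (n * s), ∑ τ : Equiv.Perm (Fin (n * s)), G θ τ := by
    have h1 : ∀ θ : Th (n * s), (if θ ∈ B then ((n * s).factorial : ℝ) else 0) -
        ((n * s).factorial : ℝ) / (s * ε ^ 2) ≤ ∑ τ : Equiv.Perm (Fin (n * s)), G θ τ := by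
      intro θ
      rw [hG]
      simp only
      rw [Finset.sum_sub_distrib, Finset.sum_const, Finset.card_univ, Fintype.card_perm,
        Fintype.card_fin, nsmul_eq_mul, ← Finset.sum_div]
      have h2 : (∑ τ : Equiv.Perm (Fin (n * s)), P θ τ) / ε ^ 2 ≤
          ((n * s).factorial : ℝ) / (s * ε ^ 2) := by
        rw [← div_div]
        exact div_le_div_of_nonneg_right (hPs θ) (by positivity)
      have h3 : ((n * s).factorial : ℝ) * (if θ ∈ B then (1 : ℝ) else 0) =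
          (if θ ∈ B then ((n * s).factorial : ℝ) else 0) := by
        split_ifs <;> simp
      rw [h3]
      linarith
    calc ((n * s).factorial : ℝ) * B.card - 4 ^ (n * s) * (((n * s).factorial : ℝ) / (s * ε ^ 2))
        = ∑ θ : Th (n * s), ((if θ ∈ B then ((n * s).factorial : ℝ) else 0) -
            ((n * s).factorial : ℝ) / (s * ε ^ 2)) := by
          rw [Finset.sum_sub_distrib, Finset.sum_const, Finset.card_univ, card_Th, nsmul_eq_mul,
            ← Finset.sum_filter, Finset.sum_const, nsmul_eq_mul]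
          have hfB : (Finset.univ.filter (fun θ : Th (n * s) => θ ∈ B)) = B := by
            ext θ
            simp
          rw [hfB]
          push_cast
          ring
      _ ≤ _ := Finset.sum_le_sum (fun θ _ => h1 θ)
  have hex : ∃ p : Equiv.Perm (Fin (n * s)) × Th (n * s),
      ((B.card : ℝ) / 4 ^ (n * s) - 1 / (s * ε ^ 2)) * 4 ^ n ≤ ∑ θ' : Th n, G (cg p.1 p.2 θ') p.1 := by
    by_contra hcon
    push Not at hcon
    have h1 : ∑ p : Equiv.Perm (Fin (n * s)) × Th (n * s), ∑ θ' : Th n, G (cg p.1 p.2 θ') p.1 <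
        ∑ _p : Equiv.Perm (Fin (n * s)) × Th (n * s),
          ((B.card : ℝ) / 4 ^ (n * s) - 1 / (s * ε ^ 2)) * 4 ^ n :=
      Finset.sum_lt_sum_of_nonempty ⟨(1, 0), Finset.mem_univ _⟩ (fun p _ => hcon p)
    rw [Finset.sum_const, Finset.card_univ, Fintype.card_prod, Fintype.card_perm, Fintype.card_fin,
      card_Th, nsmul_eq_mul, hsum1] at h1
    have h2 : (4 : ℝ) ^ n * (((n * s).factorial : ℝ) * B.card -
        4 ^ (n * s) * (((n * s).factorial : ℝ) / (s * ε ^ 2))) ≤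
        4 ^ n * ∑ θ : Th (n * s), ∑ τ : Equiv.Perm (Fin (n * s)), G θ τ :=
      mul_le_mul_of_nonneg_left hsum2 (by positivity)
    have h3 : (((n * s).factorial * 4 ^ (n * s) : ℕ) : ℝ) *
        (((B.card : ℝ) / 4 ^ (n * s) - 1 / (s * ε ^ 2)) * 4 ^ n) =
        (4 : ℝ) ^ n * (((n * s).factorial : ℝ) * B.card -
        4 ^ (n * s) * (((n * s).factorial : ℝ) / (s * ε ^ 2))) := by
      push_cast
      field_simp
    linarith
  obtain ⟨⟨τ, σ⟩, hp⟩ := hex
  simp only at hp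
  refine ⟨cu u τ σ, cg τ σ, (hST1 d n s hn hs u f hS τ σ).1,
    Finset.univ.filter (fun θ' => cg τ σ θ' ∈ B ∧ ‖pr (cu u τ σ) (w (f (cg τ σ θ')))‖ ≤ ε), ?_, ?_⟩
  · intro θ hθ
    exact (Finset.mem_filter.1 hθ).2
  · refine hp.trans ?_
    rw [← Finset.sum_boole]
    apply Finset.sum_le_sum
    intro θ' _
    rw [hG]
    simp only
    rw [← hpr]
    have h0 : 0 ≤ ‖pr (cu u τ σ) (w (f (cg τ σ θ')))‖ ^ 2 / ε ^ 2 := by positivity
    by_cases hB : cg τ σ θ' ∈ B
    · by_cases hle : ‖pr (cu u τ σ) (w (f (cg τ σ θ')))‖ ≤ ε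
      · rw [if_pos hB, if_pos ⟨hB, hle⟩]
        linarith
      · rw [if_pos hB, if_neg (fun h => hle h.2)]
        have h1 : 1 ≤ ‖pr (cu u τ σ) (w (f (cg τ σ θ')))‖ ^ 2 / ε ^ 2 := by
          rw [one_le_div (by positivity)]
          exact pow_le_pow_left₀ hε.le (not_le.1 hle).le 2
        linarith
    · rw [if_neg hB, if_neg (fun h => hB h.1)]
      linarith

end Pool.Agent.H6.RX
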